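import Pool.Agent.Helper669.CloneComb

/-!
In ZFC the clone lattice on a set of infinite regular cardinality is not dually atomic.
-/

namespace Pool.Agent.Results.MP_174cbb_lc.Regular

open Set Pool.Agent.Helper669.CloneComb

universe u

/-- The finitary operations on `X`: a pair `⟨n, f⟩` is an operation `f` of arity `n + 1`. -/
abbrev Oper (X : Type u) : Type u := Σ n : ℕ, ((Fin (n + 1) → X) → X)

/-- A clone on `X`: a set of finitary operations on `X` that contains all projections and is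
closed under composition. -/
def IsClone {X : Type u} (C : Set (Oper X)) : Prop :=
  (∀ (n : ℕ) (i : Fin (n + 1)), (⟨n, fun x => x i⟩ : Oper X) ∈ C) ∧
  ∀ (n m : ℕ) (f : (Fin (n + 1) → X) → X) (g : Fin (n + 1) → (Fin (m + 1) → X) → X),
    (⟨n, f⟩ : Oper X) ∈ C → (∀ i, (⟨m, g i⟩ : Oper X) ∈ C) →
      (⟨m, fun x => f fun i => g i x⟩ : Oper X) ∈ C

/-- A precomplete clone: a clone different from the clone of all operations, such that the only
clone properly containing it is the clone of all operations. -/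
def IsPrecomplete {X : Type u} (M : Set (Oper X)) : Prop :=
  IsClone M ∧ M ≠ univ ∧ ∀ D : Set (Oper X), IsClone D → M ⊂ D → D = univ

/-- The clone lattice on `X` is dually atomic: every clone different from the clone of all
operations is contained in a precomplete clone. -/
def DuallyAtomic (X : Type u) : Prop :=
  ∀ C : Set (Oper X), IsClone C → C ≠ univ → ∃ M : Set (Oper X), IsPrecomplete M ∧ C ⊆ M

section

variable {X : Type u} [LinearOrder X] [WellFoundedLT X]

open Classical in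
/-- the next element of `Y` above `x` -/
noncomputable def nx (Y : Set X) (x : X) : X :=
  if h : ({y | y ∈ Y ∧ x < y} : Set X).Nonempty then (wellFounded_lt (α := X)).min _ h else x

theorem nx_spec {Y : Set X} (hY : ∀ x, ∃ y ∈ Y, x < y) (x : X) : nx Y x ∈ Y ∧ x < nx Y x := by
  have h : ({y | y ∈ Y ∧ x < y} : Set X).Nonempty := hY x
  unfold nx
  rw [dif_pos h]
  exact WellFounded.min_mem (wellFounded_lt (α := X)) _ h

theorem nx_le {Y : Set X} {x y : X} (hy : y ∈ Y) (hxy : x < y) : nx Y x ≤ y := by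
  have h : ({y | y ∈ Y ∧ x < y} : Set X).Nonempty := ⟨y, hy, hxy⟩
  unfold nx
  rw [dif_pos h]
  exact WellFounded.min_le (wellFounded_lt (α := X)) (show y ∈ {y | y ∈ Y ∧ x < y} from ⟨hy, hxy⟩)

theorem nx_mono {Y : Set X} (hY : ∀ x, ∃ y ∈ Y, x < y) : Monotone (nx Y) := fun _ y hxy =>
  nx_le (nx_spec hY y).1 (hxy.trans_lt (nx_spec hY y).2)

theorem nx_anti {Y Z : Set X} (hZ : ∀ x, ∃ y ∈ Z, x < y) (h : Z ⊆ Y) (x : X) :
    nx Y x ≤ nx Z x := nx_le (h (nx_spec hZ x).1) (nx_spec hZ x).2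

/-- if iterates of the next element function reach `f x`, then the set is sparse -/
theorem card_le_of_iterate {h : X → X} (hm : Monotone h) (hi : ∀ x, x < h x) {Y : Set X} :
    ∀ (k : ℕ) (x : X) (T : Finset X),
    (∀ t ∈ T, t ∈ Y ∧ h x < t ∧ t < (fun z => nx Y (h z))^[k] x) →
    (∀ t ∈ T, ∀ t' ∈ T, t < t' → h t < t') → T.card ≤ k := by
  classical
  intro k
  induction k with
  | zero =>
    intro x T hT _
    have : T = ∅ := Finset.eq_empty_of_forall_notMem fun t ht => by
      have := hT t ht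
      exact absurd (((hi x).trans this.2.1).trans this.2.2) (lt_irrefl _)
    simp [this]
  | succ k ih =>
    intro x T hT hsep
    rcases T.eq_empty_or_nonempty with rfl | hne
    · simp
    · have h1 : (T.erase (T.min' hne)).card ≤ k := by
        refine ih (nx Y (h x)) _ ?_ ?_
        · intro t ht
          have ht' := Finset.mem_of_mem_erase ht
          have h0 := hT _ (T.min'_mem hne)
          have h2 : nx Y (h x) ≤ T.min' hne := nx_le h0.1 h0.2.1
          have h3 : T.min' hne < t := lt_of_le_of_ne (T.min'_le t ht')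
            (Finset.ne_of_mem_erase ht).symm
          refine ⟨(hT t ht').1, (hm h2).trans_lt (hsep _ (T.min'_mem hne) t ht' h3), ?_⟩
          have := (hT t ht').2.2
          rwa [Function.iterate_succ_apply] at this
        · intro t ht t' ht'
          exact hsep t (Finset.mem_of_mem_erase ht) t' (Finset.mem_of_mem_erase ht')
      rw [Finset.card_erase_of_mem (T.min'_mem hne)] at h1
      omega

/-- the clones `D h` -/
def D (U : Ultrafilter X) (h : X → X) : Set (Oper X) :=
  {p | ∃ Y ∈ U, ∃ k : ℕ, ∀ (x : Fin (p.1 + 1) → X) (N : X), (∀ i, x i ≤ N) →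
    p.2 x ≤ (fun z => nx Y (h z))^[k] N}

variable {U : Ultrafilter X} (hU : ∀ Y ∈ U, ∀ x, ∃ y ∈ Y, x < y)

include hU

theorem step_mono {Y : Set X} (hY : Y ∈ U) {h : X → X} (hm : Monotone h) :
    Monotone fun z => nx Y (h z) := fun _ _ hab => nx_mono (hU Y hY) (hm hab)

theorem le_step {Y : Set X} (hY : Y ∈ U) {h : X → X} (hi : ∀ x, x ≤ h x) (x : X) :
    x ≤ nx Y (h x) := (hi x).trans (nx_spec (hU Y hY) _).2.le

theorem iter_le {Y Z : Set X} (hY : Y ∈ U) (hZ : Z ∈ U) (hZY : Z ⊆ Y) {h : X → X}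
    (hm : Monotone h) (hi : ∀ x, x ≤ h x) {k l : ℕ} (hkl : k ≤ l) (x : X) :
    (fun z => nx Y (h z))^[k] x ≤ (fun z => nx Z (h z))^[l] x := by
  have h1 : (fun z => nx Y (h z))^[k] x ≤ (fun z => nx Z (h z))^[k] x := by
    clear hkl
    induction k generalizing x with
    | zero => exact le_rfl
    | succ k ih =>
      rw [Function.iterate_succ_apply, Function.iterate_succ_apply]
      exact ((step_mono hU hY hm).iterate k (nx_anti (hU Z hZ) hZY (h x))).trans (ih _)
  refine h1.trans ?_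
  exact Function.monotone_iterate_of_id_le (fun z => le_step hU hZ hi z) hkl x

theorem isClone_D {h : X → X} (hm : Monotone h) (hi : ∀ x, x ≤ h x) : IsClone (D U h) := by
  classical
  refine ⟨fun n i => ⟨univ, Filter.univ_mem, 0, fun x N hN => hN i⟩, ?_⟩
  rintro n m f g ⟨Y, hY, k, hf⟩ hg
  choose Z hZ l hg using hg
  let W : Set X := Y ∩ ⋂ i, Z i
  have hW : W ∈ U := Filter.inter_mem hY (Filter.iInter_mem.2 hZ)
  let L : ℕ := Finset.univ.sup l
  refine ⟨W, hW, k + L, fun x N hN => ?_⟩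
  have h1 : ∀ i, g i x ≤ (fun z => nx W (h z))^[L] N := fun i =>
    (hg i x N hN).trans (iter_le hU (hZ i) hW
      (inter_subset_right.trans (iInter_subset _ i)) hm hi (Finset.le_sup (Finset.mem_univ i)) N)
  refine (hf (fun i => g i x) _ h1).trans ?_
  rw [Function.iterate_add_apply]
  exact iter_le hU hY hW inter_subset_left hm hi le_rfl _

/-- the interval above `D id` is a chain -/
theorem chain {n m : ℕ} (f : (Fin (n + 1) → X) → X) (g : (Fin (m + 1) → X) → X)
    (hfg : {y | ∀ x : Fin (n + 1) → X, (∀ i, x i ≤ y) → ∃ z : Fin (m + 1) → X, (∀ i, z i ≤ y) ∧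
      f x ≤ g z} ∈ U)
    {M : Set (Oper X)} (hM : IsClone M) (hCM : D U id ⊆ M) (hg : (⟨m, g⟩ : Oper X) ∈ M) :
    (⟨n, f⟩ : Oper X) ∈ M := by
  classical
  set Y := {y | ∀ x : Fin (n + 1) → X, (∀ i, x i ≤ y) → ∃ z : Fin (m + 1) → X, (∀ i, z i ≤ y) ∧
      f x ≤ g z} with hYdef
  have h1 : ∀ x : Fin (n + 1) → X, ∃ z : Fin (m + 1) → X,
      (∀ N, (∀ i, x i ≤ N) → ∀ i, z i ≤ nx Y N) ∧ f x ≤ g z := by
    intro x
    obtain ⟨i0, hi0⟩ := Finite.exists_max x
    have h2 := nx_spec (hU Y hfg) (x i0)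
    obtain ⟨z, hz, hfz⟩ := h2.1 x fun i => (hi0 i).trans h2.2.le
    exact ⟨z, fun N hN i => (hz i).trans (nx_mono (hU Y hfg) (hN i0)), hfz⟩
  choose z hz hfz using h1
  have hzM : ∀ i, (⟨n, fun x => z x i⟩ : Oper X) ∈ M := fun i =>
    hCM ⟨Y, hfg, 1, fun x N hN => hz x N hN i⟩
  have ht : (⟨n, fun x => g (z x)⟩ : Oper X) ∈ M := hM.2 m n g (fun i x => z x i) hg hzM
  have hF : (⟨n + 1, fun x : Fin (n + 2) → X => min (f (Fin.init x)) (x (Fin.last (n + 1)))⟩ :
      Oper X) ∈ M := by
    refine hCM ⟨univ, Filter.univ_mem, 0, fun x N hN => ?_⟩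
    exact (min_le_right _ _).trans (hN _)
  have h3 := hM.2 (n + 1) n _ (fun i x => Fin.lastCases (motive := fun _ => X) (g (z x))
    (fun j => x j) i) hF (by
      intro i
      induction i using Fin.lastCases with
      | last => simpa using ht
      | cast j => simpa using hM.1 n j)
  have h5 : f = fun x => min (f (Fin.init fun i => Fin.lastCases (motive := fun _ => X) (g (z x))
      (fun j => x j) i)) (Fin.lastCases (motive := fun _ => X) (g (z x))
      (fun j => x j) (Fin.last (n + 1))) := by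
    funext x
    have h4 : (Fin.init fun i => Fin.lastCases (motive := fun _ => X) (g (z x))
      (fun j => x j) i) = x := by
      funext j
      simp [Fin.init]
    rw [h4]
    simp [hfz x]
  rw [h5]
  exact h3

theorem chain_or {n m : ℕ} (f : (Fin (n + 1) → X) → X) (g : (Fin (m + 1) → X) → X) :
    (∀ M : Set (Oper X), IsClone M → D U id ⊆ M → (⟨m, g⟩ : Oper X) ∈ M →
      (⟨n, f⟩ : Oper X) ∈ M) ∨
    (∀ M : Set (Oper X), IsClone M → D U id ⊆ M → (⟨n, f⟩ : Oper X) ∈ M →
      (⟨m, g⟩ : Oper X) ∈ M) := by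
  classical
  by_cases h : {y | ∀ x : Fin (n + 1) → X, (∀ i, x i ≤ y) → ∃ z : Fin (m + 1) → X,
      (∀ i, z i ≤ y) ∧ f x ≤ g z} ∈ U
  · exact Or.inl fun M hM hC hg => chain hU f g h hM hC hg
  · right
    refine fun M hM hC hf => chain hU g f ?_ hM hC hf
    filter_upwards [Ultrafilter.compl_mem_iff_notMem.2 h] with y hy
    simp only [mem_compl_iff, mem_ofPred_eq] at hy
    push Not at hy
    obtain ⟨x, hx, hxz⟩ := hy
    exact fun z hz => ⟨x, hx, (hxz z hz).le⟩

end

/-- **Theorem.** In ZFC, for every infinite regular cardinal `κ`, the clone lattice on a set of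
size `κ` is not dually atomic. -/
theorem result (X : Type u) (hX : (Cardinal.mk X).IsRegular) : ¬ DuallyAtomic X := by
  classical
  obtain ⟨_, _, hord⟩ := Cardinal.exists_ord_eq_type_lt X
  have hinf : Infinite X := Cardinal.infinite_iff.2 hX.aleph0_le
  have hbd : Bd X := by
    intro f N
    by_contra hcon
    push Not at hcon
    have h1 : IsCofinal (f '' Iic N) := fun b => by
      obtain ⟨x, hx, hb⟩ := hcon b
      exact ⟨f x, ⟨x, hx, rfl⟩, hb⟩
    have h2 := Order.cof_le h1
    rw [← Ordinal.cof_type, ← hord, hX.cof_ord] at h2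
    have h3 : Cardinal.mk (Iic N) < Cardinal.mk X := by
      have h3 : Iic N = insert N (Iio N) := by
        ext y; simp [le_iff_eq_or_lt]
      rw [h3]
      exact (Cardinal.mk_insert_le).trans_lt (Cardinal.add_lt_of_lt hX.aleph0_le
        (Cardinal.mk_Iio_lt N hord) (Cardinal.one_lt_aleph0.trans_le hX.aleph0_le))
    exact absurd (h2.trans Cardinal.mk_image_le) (not_le.2 h3)
  obtain ⟨I, _, _, h, hI, hordI, hm, hi, hdom, hsm⟩ := exists_dominating hbd
  obtain ⟨f, U, hUn, hUs⟩ := exists_ultra hbd hI hordI hsm h hm hi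
  have hU : ∀ Y ∈ U, ∀ x, ∃ y ∈ Y, x < y := by
    intro Y hY x
    obtain ⟨ξ, hξ⟩ := hbd id x
    obtain ⟨y, hy1, hy2⟩ := U.nonempty_of_mem (Filter.inter_mem hY (hUn ξ))
    exact ⟨y, hy1, (hξ x le_rfl).trans_le hy2⟩
  have hne : ∀ α, D U (h α) ≠ univ := by
    intro α hα
    have h1 : (⟨0, fun x => f α (x 0)⟩ : Oper X) ∈ D U (h α) := by rw [hα]; exact mem_univ _
    obtain ⟨Y, hY, k, hk⟩ := h1
    refine hUs α k Y hY fun x T hT hsep => ?_
    refine card_le_of_iterate (Y := Y) (hm α) (hi α) k x T (fun t ht => ?_) hsep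
    obtain ⟨h2, h3, h4⟩ := hT t ht
    exact ⟨h2, h3, h4.trans_le (hk (fun _ => x) x fun _ => le_rfl)⟩
  have hsub : ∀ α, D U id ⊆ D U (h α) := by
    rintro α ⟨n, g⟩ ⟨Y, hY, k, hk⟩
    refine ⟨Y, hY, k, fun x N hN => (hk x N hN).trans ?_⟩
    clear hk hN
    induction k generalizing N with
    | zero => exact le_rfl
    | succ k ih =>
      rw [Function.iterate_succ_apply, Function.iterate_succ_apply]
      exact (ih _).trans ((step_mono hU hY (hm α)).iterate k
        (nx_mono (hU Y hY) (hi α N).le))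
  intro hda
  have hC : IsClone (D U id) := isClone_D hU monotone_id fun x => le_rfl
  obtain ⟨α0, _⟩ := hdom id
  have hCne : D U id ≠ univ := fun he => hne α0 (univ_subset_iff.1 (he ▸ hsub α0))
  obtain ⟨M, ⟨hM, hMne, hMmax⟩, hCM⟩ := hda _ hC hCne
  obtain ⟨⟨m, g⟩, hgM⟩ := (ne_univ_iff_exists_notMem M).1 hMne
  -- a function bounding `g`
  have h1 : ∀ N, ∃ ξ, ∀ z : Fin (m + 1) → X, (∀ i, z i ≤ N) → g z < ξ := bd_multi hbd (m + 1) g
  choose φ hφ using h1
  obtain ⟨α, hα⟩ := hdom φ
  have hgD : (⟨m, g⟩ : Oper X) ∈ D U (h α) := by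
    refine ⟨univ, Filter.univ_mem, 1, fun x N hN => ?_⟩
    refine ((hφ N x hN).le.trans (hα N)).trans ?_
    exact (nx_spec (hU univ Filter.univ_mem) _).2.le
  have hDα : IsClone (D U (h α)) := isClone_D hU (hm α) fun x => (hi α x).le
  have hMD : M ⊆ D U (h α) := by
    rintro ⟨n, e⟩ he
    rcases chain_or hU e g with h2 | h2
    · exact h2 _ hDα (hsub α) hgD
    · exact absurd (h2 M hM hCM he) hgM
  exact hne α (hMmax _ hDα ⟨hMD, fun h => hgM (h hgD)⟩)

end Pool.Agent.Results.MP_174cbb_lc.Regular
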